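import Pool.Agent.Run7.h608.TK.Iface

set_option autoImplicit false

open MeasureTheory Set Filter Topology
open scoped ENNReal
open R109.GT

namespace Run7.h640.TK

open Run7.h608.TK

theorem dsc_one (w : ℕ → ℤ → ℤ) (n : ℕ) (i q q' : ℤ) (h : Cr w n i q) (hq : q' / 2 = q) :
    ∃ i', i' / 2 = i ∧ Cr w (n + 1) i' q' := by
  have e0 : (2 * i) / 2 = i := by omega
  have e1 : (2 * i + 1) / 2 = i := by omega
  have m0 : (2 * i) % 2 = 0 := by omega
  have m1 : ¬ (2 * i + 1) % 2 = 0 := by omega
  have v0 : val w (n + 1) (2 * i) = 2 * val w n i := by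
    simp only [val, e0, m0, if_true]; ring
  have v1 : val w (n + 1) (2 * i + 1) = 2 * val w n i + (slope w n i + w n i) := by
    simp only [val, e1, m1, if_false]
  have s0 : slope w (n + 1) (2 * i) = slope w n i + w n i := by
    simp only [R109.GT.slope, e0, m0, if_true]; ring
  have s1 : slope w (n + 1) (2 * i + 1) = slope w n i - w n i := by
    simp only [R109.GT.slope, e1, m1, if_false]; ring
  rcases h with ⟨h1, h2⟩ | ⟨h1, h2⟩
  · by_cases hc : q' + 1 ≤ 2 * val w n i + (slope w n i + w n i)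
    · refine ⟨2 * i, e0, Or.inl ?_⟩
      rw [v0, s0]; constructor <;> omega
    · refine ⟨2 * i + 1, e1, Or.inl ?_⟩
      rw [v1, s1]; constructor <;> omega
  · by_cases hc : q' + 1 ≤ 2 * val w n i + (slope w n i + w n i)
    · refine ⟨2 * i + 1, e1, Or.inr ?_⟩
      rw [v1, s1]; constructor <;> omega
    · refine ⟨2 * i, e0, Or.inr ?_⟩
      rw [v0, s0]; constructor <;> omega

theorem t_DSC : S_DSC := by
  intro w _ n m
  induction m with
  | zero =>
    intro i q q' h hq
    refine ⟨i, by simp, ?_⟩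
    have : q' = q := by simpa using hq
    rw [this]; simpa using h
  | succ m ih =>
    intro i q q' h hq
    have h1 : q' / 2 / 2 ^ m = q := by
      rw [Int.ediv_ediv_of_nonneg (by norm_num), ← pow_succ']; exact hq
    obtain ⟨i1, hi1, hc1⟩ := ih i q (q' / 2) h h1
    obtain ⟨i', hi', hc'⟩ := dsc_one w (n + m) i1 (q' / 2) q' hc1 rfl
    refine ⟨i', ?_, hc'⟩
    rw [pow_succ', ← Int.ediv_ediv_of_nonneg (by norm_num), hi', hi1]

end Run7.h640.TK
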