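import Pool.Agent.Run7.h608.TK.Iface
import Pool.Agent.R109.GT.E

set_option autoImplicit false

open MeasureTheory Set Filter Topology
open scoped ENNReal
open R109.GT

namespace Run7.h640.TK

open Run7.h608.TK

theorem occ_apply (v : ℕ → ℤ → ℤ) (hv : Sgn v) (E : Set ℝ) (hE : MeasurableSet E) :
    occ v E = volume (tak v ⁻¹' E ∩ Ico 0 1) := by
  unfold occ
  rw [Measure.map_apply (R109.GT.cont v hv).measurable hE,
    Measure.restrict_apply ((R109.GT.cont v hv).measurable hE)]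

theorem t_DEN : S_SC → S_BDC → S_REC → S_DEN := by
  intro hSC hBDC hREC D0 hE w hw hB a b hpos η hη hηD
  by_contra hcon
  push Not at hcon
  obtain ⟨x, hxZ, hx01, hxab⟩ : ∃ x, x ∈ Z w ∧ x ∈ Ico (0:ℝ) 1 ∧ tak w x ∈ Ioo a b := by
    by_contra hno
    push Not at hno
    have hsub : tak w ⁻¹' (Ioo a b) ∩ Ico 0 1 ⊆ Ico (0:ℝ) 1 \ Z w := by
      intro x hx
      refine ⟨hx.2, fun hxZ => hno x hxZ hx.2 hx.1⟩
    have h0 := measure_mono_null hsub (hREC w hw)
    rw [occ_apply w hw _ measurableSet_Ioo, h0] at hpos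
    exact lt_irrefl _ hpos
  have hlim : Tendsto (fun n : ℕ => (2:ℝ) / 2 ^ n) atTop (𝓝 0) :=
    tendsto_const_nhds.div_atTop (tendsto_pow_atTop_atTop_of_one_lt one_lt_two)
  have hev : ∀ᶠ n : ℕ in atTop, (2:ℝ) / 2 ^ n < min (tak w x - a) (b - tak w x) :=
    hlim.eventually_lt_const (lt_min (by linarith [hxab.1]) (by linarith [hxab.2]))
  have hxZ' : ∃ᶠ n in atTop, R109.GT.S w n x = 0 := hxZ
  obtain ⟨n, hS, hn⟩ := (hxZ'.and_eventually hev).exists
  have h2n : (0:ℝ) < 2 ^ n := by positivity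
  obtain ⟨i, hi⟩ : ∃ i : ℤ, ⌊(2:ℝ) ^ n * x⌋ = i := ⟨_, rfl⟩
  have hsl : R109.GT.slope w n i = 0 := by rw [← hi]; exact hS
  have hi0 : (0:ℝ) ≤ i := by
    rw [← hi]; exact_mod_cast Int.floor_nonneg.2 (mul_nonneg h2n.le hx01.1)
  have hi1 : (i:ℝ) + 1 ≤ 2 ^ n := by
    have : ⌊(2:ℝ) ^ n * x⌋ < (2:ℤ) ^ n := by
      rw [Int.floor_lt]; push_cast
      calc (2:ℝ) ^ n * x < 2 ^ n * 1 := by
            apply mul_lt_mul_of_pos_left hx01.2 h2n
        _ = 2 ^ n := mul_one _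
    rw [hi] at this
    exact_mod_cast this
  obtain ⟨hv, hform, -⟩ := hSC w hw n i
  have hform0 : ∀ y : ℝ, y ∈ J n i → (2:ℝ) ^ n * tak w y =
      val w n i + tak (sh w n i) ((2:ℝ) ^ n * y - i) := by
    intro y hy
    rw [hform y hy, hsl]; simp
  have hfx := hform0 x hi
  have hbx := abs_le.1 (R109.GT.bound (sh w n i) hv ((2:ℝ) ^ n * x - i))
  have hn1 : (2:ℝ) < (tak w x - a) * 2 ^ n := by
    have := lt_of_lt_of_le hn (min_le_left _ _)
    rwa [div_lt_iff₀ h2n] at this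
  have hn2 : (2:ℝ) < (b - tak w x) * 2 ^ n := by
    have := lt_of_lt_of_le hn (min_le_right _ _)
    rwa [div_lt_iff₀ h2n] at this
  have hBd : Bd (sh w n i) (D0 - η) := by
    apply hBDC _ _ hv (by linarith)
    intro p q hpq
    have hpqR : (p:ℝ) < q := by exact_mod_cast hpq
    rw [occ_apply _ hv _ measurableSet_Ioo]
    by_cases hne : (p:ℝ) < 1 ∧ (-1:ℝ) < q
    · obtain ⟨p', hp'⟩ : ∃ p' : ℝ, max (p:ℝ) (-1) = p' := ⟨_, rfl⟩
      obtain ⟨q', hq'⟩ : ∃ q' : ℝ, min (q:ℝ) 1 = q' := ⟨_, rfl⟩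
      have hp1 : (p:ℝ) ≤ p' := hp' ▸ le_max_left _ _
      have hp2 : (-1:ℝ) ≤ p' := hp' ▸ le_max_right _ _
      have hq1 : q' ≤ (q:ℝ) := hq' ▸ min_le_left _ _
      have hq2 : q' ≤ (1:ℝ) := hq' ▸ min_le_right _ _
      have hpq' : p' < q' := by
        rw [← hp', ← hq']
        exact max_lt (lt_min hpqR hne.1) (lt_min hne.2 (by norm_num))
      have key : (fun t : ℝ => ((i:ℝ) + t) / 2 ^ n) ''
          (tak (sh w n i) ⁻¹' Ioo (p:ℝ) q ∩ Ico 0 1) ⊆
          tak w ⁻¹' (Icc (((val w n i : ℝ) + p') / 2 ^ n) (((val w n i : ℝ) + q') / 2 ^ n)) ∩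
            Ico 0 1 := by
        rintro _ ⟨t, ⟨ht, ht0, ht1⟩, rfl⟩
        have e1 : (2:ℝ) ^ n * (((i:ℝ) + t) / 2 ^ n) = i + t := by field_simp
        have hJ : ((i:ℝ) + t) / 2 ^ n ∈ J n i := by
          show ⌊(2:ℝ) ^ n * (((i:ℝ) + t) / 2 ^ n)⌋ = i
          rw [e1, Int.floor_eq_iff]
          constructor <;> linarith
        have hf := hform0 _ hJ
        rw [e1, add_sub_cancel_left] at hf
        have hb := abs_le.1 (R109.GT.bound (sh w n i) hv t)
        have ht' : (p:ℝ) < tak (sh w n i) t ∧ tak (sh w n i) t < q := ht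
        have hq3 : p' ≤ tak (sh w n i) t := by
          rw [← hp']; exact max_le ht'.1.le hb.1
        have hq4 : tak (sh w n i) t ≤ q' := by
          rw [← hq']; exact le_min ht'.2.le hb.2
        refine ⟨⟨?_, ?_⟩, ?_, ?_⟩
        · rw [div_le_iff₀ h2n, mul_comm, hf]; linarith
        · rw [le_div_iff₀ h2n, mul_comm, hf]; linarith
        · exact div_nonneg (by linarith) h2n.le
        · show ((i:ℝ) + t) / 2 ^ n < 1
          rw [div_lt_one h2n]; linarith
      have hvol := measure_mono (μ := volume) key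
      rw [R109.GT.E.vol_affine, ← occ_apply w hw _ measurableSet_Icc] at hvol
      have hc := hcon (((val w n i : ℝ) + p') / 2 ^ n) (((val w n i : ℝ) + q') / 2 ^ n)
        (by rw [lt_div_iff₀ h2n]; nlinarith) (by gcongr)
        (by rw [div_lt_iff₀ h2n]; nlinarith)
      have e2 : ENNReal.ofReal ((D0 - η) * (((val w n i : ℝ) + q') / 2 ^ n -
          ((val w n i : ℝ) + p') / 2 ^ n)) =
          ENNReal.ofReal (1 / 2 ^ n) * ENNReal.ofReal ((D0 - η) * (q' - p')) := by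
        rw [← ENNReal.ofReal_mul (by positivity)]
        congr 1
        field_simp
        ring
      rw [e2] at hc
      have h3 := hvol.trans hc
      have hpos' : ENNReal.ofReal (1 / 2 ^ n) ≠ 0 := by
        rw [Ne, ENNReal.ofReal_eq_zero, not_le]; positivity
      have h4 := (ENNReal.mul_le_mul_iff_right hpos' ENNReal.ofReal_ne_top).1 h3
      refine h4.trans (ENNReal.ofReal_le_ofReal ?_)
      apply mul_le_mul_of_nonneg_left _ (by linarith)
      linarith
    · have h0 : tak (sh w n i) ⁻¹' Ioo (p:ℝ) q ∩ Ico 0 1 = ∅ := by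
        ext t
        simp only [mem_inter_iff, mem_preimage, mem_Ioo, mem_empty_iff_false, iff_false]
        rintro ⟨⟨h1, h2⟩, -⟩
        have hb := abs_le.1 (R109.GT.bound (sh w n i) hv t)
        exact hne ⟨by linarith, by linarith⟩
      rw [h0]; simp
  have := hE.2.2 _ _ hv hBd
  linarith

end Run7.h640.TK
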